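import Pool.Agent.QSol.Final

/-!
MP_b78341_nt: the two conditions are sufficient, and every prime `q` has a solution.
-/

set_option autoImplicit false

namespace Pool.Agent.QSol

/-- `q ^ k * p` is a `q`-solution iff the two conditions hold. -/
theorem crit_iff {q k p : ℕ} (hq : q.Prime) (hp : p.Prime) (hpq : p ≠ q) :
    ((q ^ k * p : ℕ) : ℤ) ∣ (((q * (q ^ k * p)).choose (q ^ k * p) : ℕ) : ℤ) - (q : ℤ) ^ (q ^ k * p) ↔
      (p : ℤ) ∣ NN q k ∧ (q - 1) * k ≤ sd q ((q - 1) * p) := by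
  refine ⟨crit hq hp, ?_⟩
  rintro ⟨h1, h2⟩
  have : Fact q.Prime := ⟨hq⟩
  have : Fact p.Prime := ⟨hp⟩
  have hA : (p : ℤ) ∣ (((q * (q ^ k * p)).choose (q ^ k * p) : ℕ) : ℤ) - (q : ℤ) ^ (q ^ k * p) := by
    rw [← ZMod.intCast_zmod_eq_zero_iff_dvd] at h1 ⊢
    have h2 := Choose.choose_modEq_choose_mod_mul_choose_div_nat (n := q * (q ^ k * p)) (k := q ^ k * p) (p := p)
    have e1 : q * (q ^ k * p) = q ^ (k + 1) * p := by ring
    rw [e1, Nat.mul_mod_left, Nat.mul_mod_left, Nat.choose_self, one_mul, Nat.mul_div_cancel _ hp.pos,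
      Nat.mul_div_cancel _ hp.pos, ← e1] at h2
    have h3 : (((q * (q ^ k * p)).choose (q ^ k * p) : ℕ) : ZMod p) = ((q ^ (k + 1)).choose (q ^ k) : ℕ) :=
      (ZMod.natCast_eq_natCast_iff _ _ _).mpr h2
    unfold NN at h1
    push_cast at h1 ⊢
    rw [h3, pow_mul, ZMod.pow_card]
    exact h1
  have hB : ((q ^ k : ℕ) : ℤ) ∣ (((q * (q ^ k * p)).choose (q ^ k * p) : ℕ) : ℤ) - (q : ℤ) ^ (q ^ k * p) := by
    rw [← kummer hq k p] at h2
    have h3 : k ≤ padicValNat q ((q * (q ^ k * p)).choose (q ^ k * p)) :=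
      Nat.le_of_mul_le_mul_left h2 (by have := hq.one_lt; omega)
    have h4 : q ^ k ∣ (q * (q ^ k * p)).choose (q ^ k * p) :=
      (padicValNat_dvd_iff_le (Nat.choose_pos (Nat.le_mul_of_pos_left _ hq.pos)).ne').mpr h3
    refine dvd_sub (Int.natCast_dvd_natCast.mpr h4) ?_
    rw [Nat.cast_pow]
    refine pow_dvd_pow _ ?_
    calc k ≤ q ^ k := (Nat.lt_pow_self hq.one_lt).le
      _ ≤ q ^ k * p := Nat.le_mul_of_pos_right _ hp.pos
  have hcop : IsCoprime ((q ^ k : ℕ) : ℤ) (p : ℤ) := by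
    rw [Nat.isCoprime_iff_coprime]
    exact Nat.Coprime.pow_left k ((Nat.coprime_primes hq hp).mpr (fun h => hpq h.symm))
  have := hcop.mul_dvd hB hA
  rwa [← Nat.cast_mul] at this

theorem pow_le_choose' (m k : ℕ) (hm : 1 ≤ m) : m ^ k ≤ (m * k).choose k := by
  induction k with
  | zero => simp
  | succ k ih =>
    have h1 := Nat.add_one_mul_choose_eq (m * k + (m - 1)) k
    have e1 : m * k + (m - 1) + 1 = m * (k + 1) := by
      rw [mul_add, mul_one]
      omega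
    rw [e1] at h1
    have h2 : m * (m * k + (m - 1)).choose k = (m * (k + 1)).choose (k + 1) := by
      have h3 : (k + 1) * (m * (m * k + (m - 1)).choose k) = (k + 1) * (m * (k + 1)).choose (k + 1) := by
        rw [mul_comm (k + 1) ((m * (k + 1)).choose (k + 1))]
        calc (k + 1) * (m * (m * k + (m - 1)).choose k) = m * (k + 1) * (m * k + (m - 1)).choose k := by ring
          _ = _ := h1
      exact Nat.eq_of_mul_eq_mul_left (by omega) h3
    rw [← h2, pow_succ, mul_comm]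
    refine Nat.mul_le_mul_left _ (ih.trans ?_)
    exact Nat.choose_le_choose _ (by omega)

theorem sd_pos {q m : ℕ} (hm : 0 < m) : 0 < sd q m := by
  by_contra hcon
  have h0 : sd q m = 0 := by omega
  have h1 := Nat.ofDigits_digits q m
  have h2 : ∀ d ∈ Nat.digits q m, d = 0 := by
    unfold sd at h0
    exact List.sum_eq_zero_iff.mp h0
  have h3 : Nat.digits q m ≠ [] := Nat.digits_ne_nil_iff_ne_zero.mpr (by omega)
  exact Nat.getLast_digit_ne_zero q (by omega) (h2 _ (List.getLast_mem h3))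

/-- For an odd prime `q` some `q * p` is a solution. -/
theorem exists_odd {q : ℕ} (hq : q.Prime) (h3 : 3 ≤ q) : ∃ p : ℕ, p.Prime ∧ p ≠ q ∧
    ((q ^ 1 * p : ℕ) : ℤ) ∣ (((q * (q ^ 1 * p)).choose (q ^ 1 * p) : ℕ) : ℤ) - (q : ℤ) ^ (q ^ 1 * p) := by
  have : Fact q.Prime := ⟨hq⟩
  obtain ⟨r, rfl⟩ : ∃ r, q = r + 1 := ⟨q - 1, by omega⟩
  set q := r + 1 with hqr
  -- `C(q ^ 2, q) = q * C(q ^ 2 - 1, q - 1)`
  have e0 : (r + 2) * r + 1 = q ^ 2 := by
    rw [hqr]
    ring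
  have e1 : (q ^ 2).choose q = q * ((r + 2) * r).choose r := by
    have h1 := Nat.add_one_mul_choose_eq ((r + 2) * r) r
    rw [e0] at h1
    have h2 : q * ((q ^ 2).choose q) = q * (q * ((r + 2) * r).choose r) := by
      calc q * ((q ^ 2).choose q) = (q ^ 2).choose (r + 1) * (r + 1) := by
            rw [mul_comm]
        _ = q ^ 2 * ((r + 2) * r).choose r := h1.symm
        _ = _ := by ring
    exact Nat.eq_of_mul_eq_mul_left hq.pos h2
  -- the cofactor
  have h1 : (r + 2) ^ r ≤ ((r + 2) * r).choose r := pow_le_choose' (r + 2) r (by omega)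
  have h2 : q ^ r + 3 ≤ (r + 2) ^ r := by
    obtain ⟨s, rfl⟩ : ∃ s, r = s + 2 := ⟨r - 2, by omega⟩
    have h4 : q ^ (s + 1) ≤ (s + 2 + 2) ^ (s + 1) := Nat.pow_le_pow_left (by omega) _
    have h5 : 3 ≤ q ^ (s + 1) := by
      calc 3 ≤ q := h3
        _ = q ^ 1 := (pow_one q).symm
        _ ≤ q ^ (s + 1) := Nat.pow_le_pow_right hq.pos (by omega)
    calc q ^ (s + 2) + 3 ≤ q ^ (s + 2) + q ^ (s + 1) := by omega
      _ = (q + 1) * q ^ (s + 1) := by ring
      _ ≤ (q + 1) * (s + 2 + 2) ^ (s + 1) := Nat.mul_le_mul_left _ h4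
      _ = (s + 2 + 2) ^ (s + 2) := by
        rw [show q + 1 = s + 2 + 2 by omega]
        ring
  obtain ⟨M, hM⟩ : ∃ M, ((r + 2) * r).choose r = q ^ r + M := ⟨((r + 2) * r).choose r - q ^ r, by omega⟩
  have hM3 : 3 ≤ M := by omega
  have e2 : NN q 1 = (q : ℤ) * (M : ℤ) := by
    unfold NN
    rw [show 1 + 1 = 2 from rfl, pow_one, e1, hM]
    push_cast
    rw [show (q : ℤ) ^ q = (q : ℤ) ^ r * q from pow_succ _ _]
    ring
  have hqM : ¬ q ∣ M := by
    intro hdvd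
    have h4 : q ^ 2 ∣ (q ^ 2).choose q := by
      rw [e1, hM, sq]
      refine Nat.mul_dvd_mul_left _ (dvd_add (dvd_pow_self _ (by omega)) hdvd)
    have h5 := kummer hq 1 1
    have h6 : sd q ((q - 1) * 1) = q - 1 := by
      unfold sd
      rw [mul_one, Nat.digits_of_lt q (q - 1) (by omega) (by omega)]
      simp
    rw [h6, pow_one, mul_one, ← sq] at h5
    have h7 : padicValNat q ((q ^ 2).choose q) = 1 :=
      Nat.eq_of_mul_eq_mul_left (show 0 < q - 1 by omega) (by rw [h5, mul_one])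
    have h8 := (padicValNat_dvd_iff_le (p := q) (n := 2)
      (Nat.choose_pos (by nlinarith : q ≤ q ^ 2)).ne').mp h4
    omega
  obtain ⟨p, hp, hpM⟩ := Nat.exists_prime_and_dvd (n := M) (by omega)
  have hpq : p ≠ q := fun h => hqM (h ▸ hpM)
  refine ⟨p, hp, hpq, (crit_iff hq hp hpq).mpr ⟨?_, ?_⟩⟩
  · rw [e2]
    exact (Int.natCast_dvd_natCast.mpr hpM).mul_left _
  · have h4 := kummer hq 1 p
    have h5 : 0 < sd q ((q - 1) * p) := sd_pos (Nat.mul_pos (by omega) hp.pos)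
    rw [← h4] at h5 ⊢
    exact Nat.mul_le_mul_left _ (Nat.pos_of_mul_pos_left h5)

/-- Every prime `q` has a solution. -/
theorem exists_sol {q : ℕ} (hq : q.Prime) : ∃ k p : ℕ, 1 ≤ k ∧ p.Prime ∧ p ≠ q ∧
    ((q ^ k * p : ℕ) : ℤ) ∣ (((q * (q ^ k * p)).choose (q ^ k * p) : ℕ) : ℤ) - (q : ℤ) ^ (q ^ k * p) := by
  rcases Nat.lt_or_ge q 3 with h | h
  · have h2 : q = 2 := by
      have := hq.two_le
      omega
    subst h2
    refine ⟨2, 3, by norm_num, by norm_num, by norm_num, ?_⟩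
    have : (2 * (2 ^ 2 * 3)).choose (2 ^ 2 * 3) = 2704156 := by
      norm_num [Nat.choose]
    rw [this]
    norm_num
  · obtain ⟨p, h1, h2, h3⟩ := exists_odd hq h
    exact ⟨1, p, le_rfl, h1, h2, h3⟩

end Pool.Agent.QSol
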