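import Mathlib

/-!
MP_b78341_nt: necessary conditions for `q ^ k * p` to be a `q`-solution (Lucas and Kummer).
-/

set_option autoImplicit false

namespace Pool.Agent.QSol

/-- Sum of the digits in base `q`. -/
def sd (q n : ℕ) : ℕ := (Nat.digits q n).sum

theorem sd_pow_mul {q : ℕ} (hq : 1 < q) (k m : ℕ) : sd q (q ^ k * m) = sd q m := by
  unfold sd
  rcases Nat.eq_zero_or_pos m with rfl | hm
  · simp
  · rw [Nat.digits_base_pow_mul hq hm]
    simp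

/-- Kummer. -/
theorem kummer {q : ℕ} (hq : q.Prime) (k m : ℕ) :
    (q - 1) * padicValNat q ((q * (q ^ k * m)).choose (q ^ k * m)) = sd q ((q - 1) * m) := by
  have : Fact q.Prime := ⟨hq⟩
  have h1 : 1 < q := hq.one_lt
  have hle : q ^ k * m ≤ q * (q ^ k * m) := Nat.le_mul_of_pos_left _ hq.pos
  rw [sub_one_mul_padicValNat_choose_eq_sub_sum_digits hle]
  have e1 : (q.digits (q ^ k * m)).sum = sd q m := sd_pow_mul h1 k m
  have e2 : (q.digits (q * (q ^ k * m))).sum = sd q m := by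
    rw [← mul_assoc, ← pow_succ']
    exact sd_pow_mul h1 (k + 1) m
  have e3 : q * (q ^ k * m) - q ^ k * m = q ^ k * ((q - 1) * m) := by
    obtain ⟨r, rfl⟩ : ∃ r, q = r + 1 := ⟨q - 1, by omega⟩
    rw [Nat.add_sub_cancel, add_mul, one_mul, Nat.add_sub_cancel]
    ring
  rw [e3, e1, e2]
  have e4 : (q.digits (q ^ k * ((q - 1) * m))).sum = sd q ((q - 1) * m) := sd_pow_mul h1 k _
  rw [e4]
  omega

/-- The number `N_k`. -/
def NN (q k : ℕ) : ℤ := ((q ^ (k + 1)).choose (q ^ k) : ℤ) - (q : ℤ) ^ (q ^ k)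

theorem NN_ne_zero {q : ℕ} (hq : q.Prime) {k : ℕ} (hk : 1 ≤ k) : NN q k ≠ 0 := by
  intro h0
  have : Fact q.Prime := ⟨hq⟩
  have h1 := kummer hq k 1
  rw [mul_one, mul_one, ← pow_succ'] at h1
  have h2 : (q ^ (k + 1)).choose (q ^ k) = q ^ (q ^ k) := by
    have : ((q ^ (k + 1)).choose (q ^ k) : ℤ) = (q : ℤ) ^ (q ^ k) := sub_eq_zero.mp h0
    exact_mod_cast this
  rw [h2, padicValNat.prime_pow] at h1
  have h3 : sd q (q - 1) = q - 1 := by
    unfold sd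
    rw [Nat.digits_of_lt q (q - 1) (by have := hq.two_le; omega) (by have := hq.two_le; omega)]
    simp
  rw [h3] at h1
  have h4 : 2 ≤ q ^ k := by
    calc 2 ≤ q := hq.two_le
      _ = q ^ 1 := (pow_one q).symm
      _ ≤ q ^ k := Nat.pow_le_pow_right hq.pos hk
  have h5 := hq.two_le
  have h6 : 0 < q - 1 := by omega
  have : (q - 1) * 2 ≤ (q - 1) * q ^ k := Nat.mul_le_mul_left _ h4
  omega

theorem NN_natAbs_le {q : ℕ} (hq : q.Prime) (k : ℕ) : (NN q k).natAbs ≤ 2 ^ (q ^ (k + 1)) := by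
  have h1 : (q ^ (k + 1)).choose (q ^ k) ≤ 2 ^ (q ^ (k + 1)) := Nat.choose_le_two_pow _ _
  have h2 : q ^ (q ^ k) ≤ 2 ^ (q ^ (k + 1)) := by
    calc q ^ (q ^ k) ≤ (2 ^ q) ^ (q ^ k) := Nat.pow_le_pow_left (Nat.lt_two_pow_self).le _
      _ = 2 ^ (q ^ (k + 1)) := by rw [← pow_mul, pow_succ']
  have h3 : NN q k = (((q ^ (k + 1)).choose (q ^ k) : ℕ) : ℤ) - ((q ^ (q ^ k) : ℕ) : ℤ) := by
    unfold NN
    push_cast
    rfl
  rw [h3]
  generalize (q ^ (k + 1)).choose (q ^ k) = a at *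
  generalize q ^ (q ^ k) = b at *
  generalize 2 ^ (q ^ (k + 1)) = c at *
  omega

/-- The two conditions. -/
theorem crit {q k p : ℕ} (hq : q.Prime) (hp : p.Prime)
    (h : ((q ^ k * p : ℕ) : ℤ) ∣ (((q * (q ^ k * p)).choose (q ^ k * p) : ℕ) : ℤ) - (q : ℤ) ^ (q ^ k * p)) :
    (p : ℤ) ∣ NN q k ∧ (q - 1) * k ≤ sd q ((q - 1) * p) := by
  have : Fact q.Prime := ⟨hq⟩
  have : Fact p.Prime := ⟨hp⟩
  constructor
  · have h1 : (p : ℤ) ∣ (((q * (q ^ k * p)).choose (q ^ k * p) : ℕ) : ℤ) - (q : ℤ) ^ (q ^ k * p) :=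
      (Int.natCast_dvd_natCast.mpr (Dvd.intro_left _ rfl)).trans h
    rw [← ZMod.intCast_zmod_eq_zero_iff_dvd] at h1 ⊢
    have h2 := Choose.choose_modEq_choose_mod_mul_choose_div_nat (n := q * (q ^ k * p)) (k := q ^ k * p) (p := p)
    have e1 : q * (q ^ k * p) = q ^ (k + 1) * p := by ring
    rw [e1, Nat.mul_mod_left, Nat.mul_mod_left, Nat.choose_self, one_mul, Nat.mul_div_cancel _ hp.pos,
      Nat.mul_div_cancel _ hp.pos, ← e1] at h2
    have h3 : (((q * (q ^ k * p)).choose (q ^ k * p) : ℕ) : ZMod p) = ((q ^ (k + 1)).choose (q ^ k) : ℕ) :=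
      (ZMod.natCast_eq_natCast_iff _ _ _).mpr h2
    unfold NN
    push_cast at h1 ⊢
    rw [h3, pow_mul, ZMod.pow_card] at h1
    exact h1
  · rw [← kummer hq k p]
    refine Nat.mul_le_mul_left _ ?_
    have hn : 0 < q ^ k * p := Nat.mul_pos (pow_pos hq.pos k) hp.pos
    have h1 : ((q ^ k : ℕ) : ℤ) ∣ (((q * (q ^ k * p)).choose (q ^ k * p) : ℕ) : ℤ) - (q : ℤ) ^ (q ^ k * p) :=
      (Int.natCast_dvd_natCast.mpr (Dvd.intro _ rfl)).trans h
    have h2 : ((q ^ k : ℕ) : ℤ) ∣ (q : ℤ) ^ (q ^ k * p) := by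
      rw [Nat.cast_pow]
      refine pow_dvd_pow _ ?_
      calc k ≤ q ^ k := (Nat.lt_pow_self hq.one_lt).le
        _ ≤ q ^ k * p := Nat.le_mul_of_pos_right _ hp.pos
    have h3 : ((q ^ k : ℕ) : ℤ) ∣ (((q * (q ^ k * p)).choose (q ^ k * p) : ℕ) : ℤ) := by
      have := dvd_add h1 h2
      rwa [sub_add_cancel] at this
    have h4 := Int.natCast_dvd_natCast.mp h3
    refine (padicValNat_dvd_iff_le ?_).mp h4
    exact (Nat.choose_pos (Nat.le_mul_of_pos_left _ hq.pos)).ne'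

end Pool.Agent.QSol
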