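import Mathlib
import Pool.Agent.QSol.Crit

/-!
MP_b78341_nt: numbers with a large digit sum (Rankin).
-/

set_option autoImplicit false

namespace Pool.Agent.QSol

open Finset

theorem sd_add_mul {q : ℕ} (hq : 1 < q) {d : ℕ} (hd : d < q) (a : ℕ) : sd q (d + q * a) = d + sd q a := by
  unfold sd
  by_cases h : d ≠ 0 ∨ a ≠ 0
  · rw [Nat.digits_add q hq d a hd h]
    simp
  · push Not at h
    rw [h.1, h.2]
    simp

theorem sum_range_mul (q : ℕ) (g : ℕ → ℕ) (M : ℕ) :
    ∑ m ∈ range (q * M), g m = ∑ a ∈ range M, ∑ d ∈ range q, g (d + q * a) := by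
  induction M with
  | zero => simp
  | succ M ih =>
    rw [mul_add, mul_one, Finset.sum_range_add, ih, Finset.sum_range_succ]
    congr 1
    refine Finset.sum_congr rfl fun d _ => ?_
    rw [add_comm]

theorem geom_le (q : ℕ) : 15 * ∑ d ∈ range q, 16 ^ d ≤ 16 ^ q := by
  induction q with
  | zero => simp
  | succ q ih =>
    rw [Finset.sum_range_succ, pow_succ]
    omega

theorem rankin {q : ℕ} (hq : 1 < q) (K : ℕ) :
    15 ^ K * ∑ m ∈ range (q ^ K), 16 ^ sd q m ≤ 16 ^ (q * K) := by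
  induction K with
  | zero =>
    simp [sd]
  | succ K ih =>
    rw [pow_succ' q K, sum_range_mul]
    have e : ∑ a ∈ range (q ^ K), ∑ d ∈ range q, 16 ^ sd q (d + q * a) =
        (∑ d ∈ range q, 16 ^ d) * ∑ a ∈ range (q ^ K), 16 ^ sd q a := by
      rw [Finset.sum_mul_sum, Finset.sum_comm]
      refine Finset.sum_congr rfl fun d hd => Finset.sum_congr rfl fun a _ => ?_
      rw [sd_add_mul hq (Finset.mem_range.mp hd), pow_add]
    rw [e]
    calc 15 ^ (K + 1) * ((∑ d ∈ range q, 16 ^ d) * ∑ a ∈ range (q ^ K), 16 ^ sd q a)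
        = (15 * ∑ d ∈ range q, 16 ^ d) * (15 ^ K * ∑ a ∈ range (q ^ K), 16 ^ sd q a) := by ring
      _ ≤ 16 ^ q * 16 ^ (q * K) := Nat.mul_le_mul (geom_le q) ih
      _ = 16 ^ (q * (K + 1)) := by rw [← pow_add]; ring_nf

/-- The count of the numbers below `q ^ K` with digit sum at least `s`. -/
theorem card_large {q : ℕ} (hq : 1 < q) (K s : ℕ) :
    15 ^ K * (((range (q ^ K)).filter fun m => s ≤ sd q m).card * 16 ^ s) ≤ 16 ^ (q * K) := by
  refine le_trans (Nat.mul_le_mul_left _ ?_) (rankin hq K)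
  calc ((range (q ^ K)).filter fun m => s ≤ sd q m).card * 16 ^ s
      = ∑ m ∈ (range (q ^ K)).filter (fun m => s ≤ sd q m), 16 ^ s := by
        rw [Finset.sum_const, smul_eq_mul]
    _ ≤ ∑ m ∈ (range (q ^ K)).filter (fun m => s ≤ sd q m), 16 ^ sd q m :=
        Finset.sum_le_sum fun m hm => Nat.pow_le_pow_right (by norm_num) (Finset.mem_filter.mp hm).2
    _ ≤ ∑ m ∈ range (q ^ K), 16 ^ sd q m :=
        Finset.sum_le_sum_of_subset (Finset.filter_subset _ _)

theorem sd_le {q : ℕ} (hq : 1 < q) (K : ℕ) : ∀ m, m < q ^ K → sd q m ≤ (q - 1) * K := by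
  induction K with
  | zero =>
    intro m hm
    rw [pow_zero] at hm
    have : m = 0 := by omega
    rw [this]
    simp [sd]
  | succ K ih =>
    intro m hm
    have h1 := Nat.mod_add_div m q
    have h2 : m % q < q := Nat.mod_lt _ (by omega)
    have h3 : m / q < q ^ K := by
      rw [pow_succ'] at hm
      exact Nat.div_lt_of_lt_mul hm
    rw [← h1, sd_add_mul hq h2]
    have h4 := ih _ h3
    have h5 : (q - 1) * (K + 1) = (q - 1) * K + (q - 1) := by ring
    omega

/-- The primes `p` such that `q ^ k * p ≤ x` may be a solution. -/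
def PP (q x k : ℕ) : Finset ℕ :=
  (range (x + 1)).filter fun p => p.Prime ∧ q ^ k * p ≤ x ∧ (p : ℤ) ∣ NN q k ∧ (q - 1) * k ≤ sd q ((q - 1) * p)

theorem card_PP_le {q : ℕ} (hq : q.Prime) (x : ℕ) {k : ℕ} (hk : 1 ≤ k) : (PP q x k).card ≤ q ^ (k + 1) := by
  have h1 : ∏ p ∈ PP q x k, p ∣ (NN q k).natAbs := by
    refine Finset.prod_primes_dvd _ ?_ ?_
    · intro p hp
      exact (Finset.mem_filter.mp hp).2.1.prime
    · intro p hp
      exact Int.natCast_dvd.mp (Finset.mem_filter.mp hp).2.2.2.1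
  have h2 : 0 < (NN q k).natAbs := Int.natAbs_pos.mpr (NN_ne_zero hq hk)
  have h3 : 2 ^ (PP q x k).card ≤ ∏ p ∈ PP q x k, p := by
    rw [← Finset.prod_const]
    refine Finset.prod_le_prod' ?_
    intro p hp
    exact (Finset.mem_filter.mp hp).2.1.two_le
  have h4 := (h3.trans (Nat.le_of_dvd h2 h1)).trans (NN_natAbs_le hq k)
  exact (Nat.pow_le_pow_iff_right (by norm_num)).mp h4

/-- Near the threshold the digit sum is almost maximal. -/
theorem card_PP_pow {q : ℕ} (hq : q.Prime) {x k L : ℕ} (hL : x < q ^ (L + 1)) (hkL : k ≤ L)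
    (hk : 32 * q * L ≤ 64 * q * k + L) :
    (PP q x k).card ^ 8 ≤ 2 ^ (64 * q + 2) * (2 ^ L) ^ 2 := by
  have h1 := hq.one_lt
  rcases Nat.eq_zero_or_pos (PP q x k).card with h0 | h0
  · rw [h0]
    simp
  set K := L + 2 - k with hK
  -- the injection
  have hmem : ∀ p ∈ PP q x k, (q - 1) * p < q ^ K ∧ (q - 1) * k ≤ sd q ((q - 1) * p) := by
    intro p hp
    obtain ⟨-, hp1, hp2, -, hp3⟩ := Finset.mem_filter.mp hp
    refine ⟨?_, hp3⟩
    have h2 : q ^ k * p < q ^ k * q ^ (L + 1 - k) := by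
      rw [← pow_add, Nat.add_sub_cancel' (by omega)]
      exact hp2.trans_lt hL
    have h3 : p < q ^ (L + 1 - k) := Nat.lt_of_mul_lt_mul_left h2
    calc (q - 1) * p ≤ q * p := Nat.mul_le_mul_right _ (by omega)
      _ < q * q ^ (L + 1 - k) := Nat.mul_lt_mul_of_pos_left h3 hq.pos
      _ = q ^ K := by
        rw [← pow_succ']
        congr 1
        omega
  obtain ⟨p0, hp0⟩ := Finset.card_pos.mp h0
  have hkK : k ≤ K := by
    have h2 := (hmem p0 hp0).2.trans (sd_le h1 K _ (hmem p0 hp0).1)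
    exact Nat.le_of_mul_le_mul_left h2 (by omega)
  have hcard : (PP q x k).card ≤ ((range (q ^ K)).filter fun m => (q - 1) * k ≤ sd q m).card := by
    refine Finset.card_le_card_of_injOn (fun p => (q - 1) * p) ?_ ?_
    · intro p hp
      have := hmem p hp
      exact Finset.mem_coe.mpr (Finset.mem_filter.mpr ⟨Finset.mem_range.mpr this.1, this.2⟩)
    · intro a _ b _ hab
      exact Nat.eq_of_mul_eq_mul_left (by omega) hab
  have h2 := card_large h1 K ((q - 1) * k)
  set c := (PP q x k).card with hc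
  obtain ⟨t, ht⟩ : ∃ t, K = k + t := ⟨K - k, by omega⟩
  have h3 : 15 ^ K * c ≤ 16 ^ ((q - 1) * t + K) := by
    have h4 : 15 ^ K * (c * 16 ^ ((q - 1) * k)) ≤ 16 ^ (q * K) :=
      le_trans (Nat.mul_le_mul_left _ (Nat.mul_le_mul_right _ hcard)) h2
    have h5 : q * K = (q - 1) * k + ((q - 1) * t + K) := by
      obtain ⟨r, rfl⟩ : ∃ r, q = r + 1 := ⟨q - 1, by omega⟩
      rw [Nat.add_sub_cancel]
      conv_lhs => rw [add_mul, one_mul]
      nth_rewrite 1 [ht]
      ring
    rw [h5, pow_add] at h4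
    have h6 : 16 ^ ((q - 1) * k) * (15 ^ K * c) ≤ 16 ^ ((q - 1) * k) * 16 ^ ((q - 1) * t + K) := by
      calc _ = 15 ^ K * (c * 16 ^ ((q - 1) * k)) := by ring
        _ ≤ _ := h4
    exact Nat.le_of_mul_le_mul_left h6 (by positivity)
  have h7 : 15 ^ (8 * K) * c ^ 8 ≤ 15 ^ (8 * K) * 2 ^ (32 * ((q - 1) * t) + K) := by
    calc 15 ^ (8 * K) * c ^ 8 = (15 ^ K * c) ^ 8 := by
          rw [mul_pow, ← pow_mul, mul_comm K 8]
      _ ≤ (16 ^ ((q - 1) * t + K)) ^ 8 := Nat.pow_le_pow_left h3 8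
      _ = 2 ^ (32 * ((q - 1) * t)) * (16 ^ 8) ^ K := by
          rw [show (16 : ℕ) = 2 ^ 4 by norm_num, ← pow_mul, ← pow_mul, ← pow_mul, ← pow_mul, ← pow_add]
          congr 1
          ring
      _ ≤ 2 ^ (32 * ((q - 1) * t)) * (2 * 15 ^ 8) ^ K :=
          Nat.mul_le_mul_left _ (Nat.pow_le_pow_left (by norm_num) K)
      _ = 15 ^ (8 * K) * 2 ^ (32 * ((q - 1) * t) + K) := by
          rw [mul_pow, ← pow_mul, pow_add]
          ring
  have h8 : c ^ 8 ≤ 2 ^ (32 * ((q - 1) * t) + K) := Nat.le_of_mul_le_mul_left h7 (by positivity)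
  refine h8.trans ?_
  rw [← pow_mul, ← pow_add]
  refine Nat.pow_le_pow_right (by norm_num) ?_
  -- `32 (q - 1) t + K ≤ 64 q + 2 + 2 L`
  have h9 : t + 2 * k = L + 2 := by omega
  have h10 : 32 * q * t ≤ L + 64 * q := by
    have e1 : 32 * q * t + 64 * q * k = 32 * q * L + 64 * q := by
      calc 32 * q * t + 64 * q * k = 32 * q * (t + 2 * k) := by ring
        _ = 32 * q * (L + 2) := by rw [h9]
        _ = _ := by ring
    omega
  have h11 : 32 * ((q - 1) * t) ≤ 32 * q * t := by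
    calc 32 * ((q - 1) * t) = (q - 1) * (32 * t) := by ring
      _ ≤ q * (32 * t) := Nat.mul_le_mul_right _ (by omega)
      _ = _ := by ring
  have h12 : K ≤ L + 2 := by omega
  omega

end Pool.Agent.QSol
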