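import Pool.Agent.QSol.Count

/-!
MP_b78341_nt: the number of `q`-solutions `q ^ k * p` up to `x` is `O(x ^ (1/2 - 1/(64 q)))`.
-/

set_option autoImplicit false

open Finset

namespace Pool.Agent.QSol

/-- The `q`-solutions up to `x` of the form `q ^ k * p` with `1 ≤ k` and a prime `p ≠ q`. -/
def SS (q x : ℕ) : Set ℕ :=
  {n | n ≤ x ∧ (∃ k p, 1 ≤ k ∧ p.Prime ∧ p ≠ q ∧ n = q ^ k * p) ∧
    (n : ℤ) ∣ (((q * n).choose n : ℕ) : ℤ) - (q : ℤ) ^ n}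

theorem SS_subset {q : ℕ} (hq : q.Prime) {x : ℕ} (hx : 1 ≤ x) :
    SS q x ⊆ (((Finset.Icc 1 (Nat.log q x)).biUnion fun k => (PP q x k).image fun p => q ^ k * p : Finset ℕ) : Set ℕ) := by
  rintro n ⟨hn, ⟨k, p, hk, hp, -, rfl⟩, hdiv⟩
  rw [Finset.mem_coe, Finset.mem_biUnion]
  have hpos : 0 < q ^ k := pow_pos hq.pos k
  have hkx : q ^ k ≤ x := (Nat.le_mul_of_pos_right _ hp.pos).trans hn
  refine ⟨k, Finset.mem_Icc.mpr ⟨hk, (Nat.le_log_iff_pow_le hq.one_lt (by omega)).mpr hkx⟩, ?_⟩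
  refine Finset.mem_image.mpr ⟨p, ?_, rfl⟩
  refine Finset.mem_filter.mpr ⟨Finset.mem_range.mpr ?_, hp, hn, crit hq hp hdiv⟩
  have : p ≤ q ^ k * p := Nat.le_mul_of_pos_left _ hpos
  omega

theorem SS_card {q : ℕ} (hq : q.Prime) {x : ℕ} (hx : 1 ≤ x) :
    (SS q x).ncard ≤ ∑ k ∈ Finset.Icc 1 (Nat.log q x), (PP q x k).card := by
  calc (SS q x).ncard
      ≤ ((((Finset.Icc 1 (Nat.log q x)).biUnion fun k => (PP q x k).image fun p => q ^ k * p : Finset ℕ) :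
          Set ℕ)).ncard := Set.ncard_le_ncard (SS_subset hq hx) (Finset.finite_toSet _)
    _ = ((Finset.Icc 1 (Nat.log q x)).biUnion fun k => (PP q x k).image fun p => q ^ k * p).card :=
        Set.ncard_coe_finset _
    _ ≤ ∑ k ∈ Finset.Icc 1 (Nat.log q x), ((PP q x k).image fun p => q ^ k * p).card :=
        Finset.card_biUnion_le
    _ ≤ ∑ k ∈ Finset.Icc 1 (Nat.log q x), (PP q x k).card :=
        Finset.sum_le_sum fun k _ => Finset.card_image_le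

theorem geom_sum_le {q : ℕ} (hq : 2 ≤ q) (k0 : ℕ) :
    ∑ k ∈ Finset.Icc 1 k0, q ^ (k + 1) ≤ q ^ (k0 + 2) := by
  induction k0 with
  | zero =>
    simp
  | succ n ih =>
    rw [Finset.sum_Icc_succ_top (by omega)]
    calc ∑ k ∈ Finset.Icc 1 n, q ^ (k + 1) + q ^ (n + 1 + 1)
        ≤ q ^ (n + 2) + q ^ (n + 2) := Nat.add_le_add_right ih _
      _ = 2 * q ^ (n + 2) := by ring
      _ ≤ q * q ^ (n + 2) := Nat.mul_le_mul_right _ hq
      _ = q ^ (n + 1 + 2) := by ring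

/-- The small exponents. -/
theorem small_exp {q : ℕ} (hq : q.Prime) {x : ℕ} (hx : 1 ≤ x) :
    ((q : ℝ)) ^ ((32 * q - 1) * Nat.log q x / (64 * q)) ≤ (x : ℝ) ^ ((1 : ℝ) / 2 - 1 / (64 * q)) := by
  set L := Nat.log q x with hL
  set k0 := (32 * q - 1) * L / (64 * q) with hk0
  have hq0 : 0 < q := hq.pos
  have h1 : q ^ L ≤ x := Nat.pow_log_le_self q (by omega)
  have h2 : k0 * (64 * q) ≤ (32 * q - 1) * L := Nat.div_mul_le_self _ _
  have h3 : (q ^ k0) ^ (64 * q) ≤ x ^ (32 * q - 1) := by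
    calc (q ^ k0) ^ (64 * q) = q ^ (k0 * (64 * q)) := by rw [← pow_mul]
      _ ≤ q ^ ((32 * q - 1) * L) := Nat.pow_le_pow_right hq0 h2
      _ = (q ^ L) ^ (32 * q - 1) := by rw [← pow_mul, mul_comm]
      _ ≤ x ^ (32 * q - 1) := Nat.pow_le_pow_left h1 _
  have h4 : ((q : ℝ) ^ k0) ^ (64 * q) ≤ (x : ℝ) ^ (32 * q - 1) := by exact_mod_cast h3
  have hqR : (0 : ℝ) < (q : ℝ) := by exact_mod_cast hq0
  have hn : (0 : ℝ) < ((64 * q : ℕ) : ℝ) := by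
    push_cast
    positivity
  have h5 : (q : ℝ) ^ k0 ≤ ((x : ℝ) ^ (32 * q - 1)) ^ (((64 * q : ℕ) : ℝ)⁻¹) := by
    rw [Real.le_rpow_inv_iff_of_pos (by positivity) (by positivity) hn, Real.rpow_natCast]
    exact h4
  refine h5.trans (le_of_eq ?_)
  rw [← Real.rpow_natCast (x : ℝ) (32 * q - 1), ← Real.rpow_mul (by positivity)]
  congr 1
  rw [Nat.cast_sub (by omega)]
  push_cast
  field_simp
  ring

/-- The large exponents. -/
theorem large_exp {q : ℕ} (hq : q.Prime) {x k : ℕ} (hx : 1 ≤ x) (hk : k ≤ Nat.log q x)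
    (hk' : (32 * q - 1) * Nat.log q x / (64 * q) < k) :
    ((PP q x k).card : ℝ) ≤ 2 ^ (8 * q + 1) * (x : ℝ) ^ ((1 : ℝ) / 4) := by
  set L := Nat.log q x with hL
  have hq0 : 0 < q := hq.pos
  have h1 : q ^ L ≤ x := Nat.pow_log_le_self q (by omega)
  have h2 : x < q ^ (L + 1) := Nat.lt_pow_succ_log_self hq.one_lt x
  have h3 : (32 * q - 1) * L < k * (64 * q) := (Nat.div_lt_iff_lt_mul (by omega)).mp hk'
  have h4 : 32 * q * L ≤ 64 * q * k + L := by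
    have h5 : (32 * q - 1) * L + L = 32 * q * L := by
      obtain ⟨r, hr⟩ : ∃ r, 32 * q = r + 1 := ⟨32 * q - 1, by omega⟩
      rw [hr, Nat.add_sub_cancel]
      ring
    have h6 : k * (64 * q) = 64 * q * k := by ring
    omega
  have h5 := card_PP_pow hq h2 hk h4
  have h6 : 2 ^ L ≤ x := (Nat.pow_le_pow_left hq.two_le L).trans h1
  have h7 : (PP q x k).card ^ 8 ≤ 2 ^ (64 * q + 8) * x ^ 2 := by
    refine h5.trans (Nat.mul_le_mul ?_ (Nat.pow_le_pow_left h6 2))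
    exact Nat.pow_le_pow_right (by norm_num) (by omega)
  have h8 : ((PP q x k).card : ℝ) ^ 8 ≤ 2 ^ (64 * q + 8) * (x : ℝ) ^ 2 := by exact_mod_cast h7
  have h9 : (2 ^ (8 * q + 1) * (x : ℝ) ^ ((1 : ℝ) / 4)) ^ 8 = 2 ^ (64 * q + 8) * (x : ℝ) ^ 2 := by
    rw [mul_pow, ← pow_mul, ← Real.rpow_natCast ((x : ℝ) ^ ((1 : ℝ) / 4)) 8,
      ← Real.rpow_mul (by positivity)]
    congr 1
    · congr 1
      ring
    · rw [← Real.rpow_natCast]
      congr 1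
      norm_num
  rw [← h9] at h8
  exact (pow_le_pow_iff_left₀ (by positivity) (by positivity) (by norm_num)).mp h8

theorem log_bound {q : ℕ} (hq : q.Prime) {x : ℕ} (hx : 1 ≤ x) :
    (Nat.log q x : ℝ) ≤ 16 * (x : ℝ) ^ ((1 : ℝ) / 8) := by
  set L := Nat.log q x with hL
  have h1 : q ^ L ≤ x := Nat.pow_log_le_self q (by omega)
  have h6 : 2 ^ L ≤ x := (Nat.pow_le_pow_left hq.two_le L).trans h1
  have h7 : (2 : ℝ) ^ L ≤ (x : ℝ) := by exact_mod_cast h6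
  have h8 : (L : ℝ) * Real.log 2 ≤ Real.log x := by
    rw [← Real.log_pow]
    exact Real.log_le_log (by positivity) h7
  have h9 : Real.log x ≤ (x : ℝ) ^ ((1 : ℝ) / 8) / (1 / 8) :=
    Real.log_le_rpow_div (by positivity) (by norm_num)
  have h10 : (1 : ℝ) / 2 ≤ Real.log 2 := by
    have := Real.log_two_gt_d9
    linarith
  have h11 : (L : ℝ) * (1 / 2) ≤ (L : ℝ) * Real.log 2 :=
    mul_le_mul_of_nonneg_left h10 (by positivity)
  have h12 : (x : ℝ) ^ ((1 : ℝ) / 8) / (1 / 8) = 8 * (x : ℝ) ^ ((1 : ℝ) / 8) := by ring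
  linarith

theorem main {q : ℕ} (hq : q.Prime) {x : ℕ} (hx : 1 ≤ x) :
    ((SS q x).ncard : ℝ) ≤ ((q : ℝ) ^ 2 + 2 ^ (8 * q + 5)) * (x : ℝ) ^ ((1 : ℝ) / 2 - 1 / (64 * q)) := by
  set L := Nat.log q x with hL
  set k0 := (32 * q - 1) * L / (64 * q) with hk0
  set B := (x : ℝ) ^ ((1 : ℝ) / 2 - 1 / (64 * q)) with hB
  have hxR : (1 : ℝ) ≤ (x : ℝ) := by exact_mod_cast hx
  have hB0 : 0 ≤ B := by positivity
  have h1 : ∑ k ∈ Finset.Icc 1 L, (PP q x k).card ≤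
      ∑ k ∈ Finset.Icc 1 k0, q ^ (k + 1) + ∑ k ∈ (Finset.Icc 1 L).filter (fun k => k0 < k), (PP q x k).card := by
    rw [← Finset.sum_filter_add_sum_filter_not (Finset.Icc 1 L) (fun k => k0 < k), add_comm]
    refine Nat.add_le_add_right ?_ _
    calc ∑ k ∈ (Finset.Icc 1 L).filter (fun k => ¬ k0 < k), (PP q x k).card
        ≤ ∑ k ∈ (Finset.Icc 1 L).filter (fun k => ¬ k0 < k), q ^ (k + 1) := by
          refine Finset.sum_le_sum fun k hk => ?_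
          exact card_PP_le hq x (Finset.mem_Icc.mp (Finset.mem_filter.mp hk).1).1
      _ ≤ ∑ k ∈ Finset.Icc 1 k0, q ^ (k + 1) := by
          refine Finset.sum_le_sum_of_subset fun k hk => ?_
          obtain ⟨h2, h3⟩ := Finset.mem_filter.mp hk
          exact Finset.mem_Icc.mpr ⟨(Finset.mem_Icc.mp h2).1, not_lt.mp h3⟩
  have h2 : ((∑ k ∈ Finset.Icc 1 k0, q ^ (k + 1) : ℕ) : ℝ) ≤ (q : ℝ) ^ 2 * B := by
    have h3 := geom_sum_le hq.two_le k0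
    have h4 : ((∑ k ∈ Finset.Icc 1 k0, q ^ (k + 1) : ℕ) : ℝ) ≤ (q : ℝ) ^ (k0 + 2) := by exact_mod_cast h3
    refine h4.trans ?_
    rw [pow_add, mul_comm]
    exact mul_le_mul_of_nonneg_left (small_exp hq hx) (by positivity)
  have h3 : ((∑ k ∈ (Finset.Icc 1 L).filter (fun k => k0 < k), (PP q x k).card : ℕ) : ℝ) ≤
      2 ^ (8 * q + 5) * B := by
    push_cast
    have h4 : ∀ k ∈ (Finset.Icc 1 L).filter (fun k => k0 < k),
        ((PP q x k).card : ℝ) ≤ 2 ^ (8 * q + 1) * (x : ℝ) ^ ((1 : ℝ) / 4) := by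
      intro k hk
      obtain ⟨h5, h6⟩ := Finset.mem_filter.mp hk
      exact large_exp hq hx (Finset.mem_Icc.mp h5).2 h6
    have h5 : (((Finset.Icc 1 L).filter (fun k => k0 < k)).card : ℝ) ≤ (L : ℝ) := by
      have : ((Finset.Icc 1 L).filter (fun k => k0 < k)).card ≤ L := by
        refine (Finset.card_filter_le _ _).trans ?_
        simp
      exact_mod_cast this
    have h6 : (x : ℝ) ^ ((1 : ℝ) / 8) * (x : ℝ) ^ ((1 : ℝ) / 4) ≤ B := by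
      rw [← Real.rpow_add (by linarith), hB]
      refine Real.rpow_le_rpow_of_exponent_le hxR ?_
      have h7 : (1 : ℝ) / (64 * q) ≤ 1 / 64 := by
        have h8 : (1 : ℝ) ≤ (q : ℝ) := by exact_mod_cast hq.one_lt.le
        refine one_div_le_one_div_of_le (by norm_num) ?_
        linarith
      linarith
    calc ∑ k ∈ (Finset.Icc 1 L).filter (fun k => k0 < k), ((PP q x k).card : ℝ)
        ≤ ∑ k ∈ (Finset.Icc 1 L).filter (fun k => k0 < k), (2 ^ (8 * q + 1) * (x : ℝ) ^ ((1 : ℝ) / 4)) :=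
          Finset.sum_le_sum h4
      _ = (((Finset.Icc 1 L).filter (fun k => k0 < k)).card : ℝ) * (2 ^ (8 * q + 1) * (x : ℝ) ^ ((1 : ℝ) / 4)) := by
          rw [Finset.sum_const, nsmul_eq_mul]
      _ ≤ (16 * (x : ℝ) ^ ((1 : ℝ) / 8)) * (2 ^ (8 * q + 1) * (x : ℝ) ^ ((1 : ℝ) / 4)) :=
          mul_le_mul_of_nonneg_right (h5.trans (log_bound hq hx)) (by positivity)
      _ = 2 ^ (8 * q + 5) * ((x : ℝ) ^ ((1 : ℝ) / 8) * (x : ℝ) ^ ((1 : ℝ) / 4)) := by ring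
      _ ≤ 2 ^ (8 * q + 5) * B := mul_le_mul_of_nonneg_left h6 (by positivity)
  have h4 : ((SS q x).ncard : ℝ) ≤ ((∑ k ∈ Finset.Icc 1 L, (PP q x k).card : ℕ) : ℝ) := by
    exact_mod_cast SS_card hq hx
  have h5 : ((∑ k ∈ Finset.Icc 1 L, (PP q x k).card : ℕ) : ℝ) ≤
      ((∑ k ∈ Finset.Icc 1 k0, q ^ (k + 1) + ∑ k ∈ (Finset.Icc 1 L).filter (fun k => k0 < k), (PP q x k).card : ℕ) : ℝ) := by
    exact_mod_cast h1
  rw [Nat.cast_add] at h5
  linarith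

/-- For fixed `k` there are at most `q ^ (k + 1)` solutions. -/
theorem fixed_k {q : ℕ} (hq : q.Prime) {k : ℕ} (hk : 1 ≤ k) :
    {p : ℕ | p.Prime ∧ ((q ^ k * p : ℕ) : ℤ) ∣
        (((q * (q ^ k * p)).choose (q ^ k * p) : ℕ) : ℤ) - (q : ℤ) ^ (q ^ k * p)}.Finite ∧
    {p : ℕ | p.Prime ∧ ((q ^ k * p : ℕ) : ℤ) ∣
        (((q * (q ^ k * p)).choose (q ^ k * p) : ℕ) : ℤ) - (q : ℤ) ^ (q ^ k * p)}.ncard ≤ q ^ (k + 1) := by
  have hsub : {p : ℕ | p.Prime ∧ ((q ^ k * p : ℕ) : ℤ) ∣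
        (((q * (q ^ k * p)).choose (q ^ k * p) : ℕ) : ℤ) - (q : ℤ) ^ (q ^ k * p)} ⊆
      ((PP q (q ^ k * (NN q k).natAbs) k : Finset ℕ) : Set ℕ) := by
    rintro p ⟨hp, hdiv⟩
    obtain ⟨h1, h2⟩ := crit hq hp hdiv
    have h3 : p ≤ (NN q k).natAbs :=
      Nat.le_of_dvd (Int.natAbs_pos.mpr (NN_ne_zero hq hk)) (Int.natCast_dvd.mp h1)
    have h4 : q ^ k * p ≤ q ^ k * (NN q k).natAbs := Nat.mul_le_mul_left _ h3
    have h5 : p ≤ q ^ k * p := Nat.le_mul_of_pos_left _ (pow_pos hq.pos k)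
    refine Finset.mem_coe.mpr (Finset.mem_filter.mpr ⟨Finset.mem_range.mpr (by omega), hp, h4, h1, h2⟩)
  refine ⟨(Finset.finite_toSet _).subset hsub, ?_⟩
  refine (Set.ncard_le_ncard hsub (Finset.finite_toSet _)).trans ?_
  rw [Set.ncard_coe_finset]
  exact card_PP_le hq _ hk

/-- The prime is not much smaller than the power of `q`. -/
theorem large_p {q k p : ℕ} (hq : q.Prime) (hk : 1 ≤ k) (hp : p.Prime)
    (h : ((q ^ k * p : ℕ) : ℤ) ∣ (((q * (q ^ k * p)).choose (q ^ k * p) : ℕ) : ℤ) - (q : ℤ) ^ (q ^ k * p)) :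
    q ^ k ≤ q * ((q - 1) * p) := by
  by_contra hcon
  push Not at hcon
  obtain ⟨r, rfl⟩ : ∃ r, k = r + 1 := ⟨k - 1, by omega⟩
  rw [pow_succ'] at hcon
  have h1 := sd_le hq.one_lt r _ (Nat.lt_of_mul_lt_mul_left hcon)
  have h2 := (crit hq hp h).2
  have h3 : (q - 1) * (r + 1) = (q - 1) * r + (q - 1) := by ring
  have h4 := hq.one_lt
  omega

end Pool.Agent.QSol
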